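import Mathlib
import Pool.Agent.Lib.MP_8d161d_ag.SM.Defs
import Pool.Agent.Lib.MP_8d161d_ag.SM.H1
import Pool.Agent.Lib.MP_8d161d_ag.SM.C3a

/-!
Definitions for the crossing estimate: a bound for the number of points at which an entire curve
meets at least two of many general hyperplanes.
-/

open Filter Topology MvPolynomial MeasureTheory

namespace Pool.Agent.Lib.GGL.CR

/-- The indices of the coordinates of a jet of order `J` in affine space of dimension `M`. -/
abbrev JIx (J M : ℕ) : Type := Fin (J + 1) × Fin M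

/-- The numerators of the derivatives of `Y i / Y 0`: the derivative of order `l` is
`num Y i l / (Y 0) ^ (l + 1)`. -/
noncomputable def num {M : ℕ} (Y : ℂ → Fin (M + 1) → ℂ) (i : Fin (M + 1)) : ℕ → ℂ → ℂ
  | 0 => fun z => Y z i
  | l + 1 => fun z => Y z 0 * deriv (num Y i l) z -
      ((l : ℂ) + 1) * deriv (fun z => Y z 0) z * num Y i l z

/-- The jet of order `J` of the affine curve `(Y 1 / Y 0, ..., Y M / Y 0)`: the Taylor
coefficients. -/
noncomputable def jet {M : ℕ} (J : ℕ) (Y : ℂ → Fin (M + 1) → ℂ) (z : ℂ) : JIx J M → ℂ := fun x =>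
  num Y x.2.succ x.1 z / (((x.1 : ℕ).factorial : ℂ) * Y z 0 ^ ((x.1 : ℕ) + 1))

/-- The polynomial curve with jet `w`. -/
noncomputable def phi {J M : ℕ} {E : Type*} [CommRing E] (w : JIx J M → E) (b : Fin M) :
    Polynomial E :=
  ∑ l : Fin (J + 1), Polynomial.C (w (l, b)) * Polynomial.X ^ (l : ℕ)

/-- The value of the constant term of the hyperplane `i` for which it passes through the point
`phi w`. -/
noncomputable def cst {N J M : ℕ} {E : Type*} [CommRing E] (p : Fin N → Fin (M + 1) → E)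
    (w : JIx J M → E) (i : Fin N) : Polynomial E :=
  - ∑ b : Fin M, Polynomial.C (p i b.succ) * phi w b

/-- The hyperplanes `p`, with the constant terms of the hyperplanes `i` and `j` changed so that
both pass through the point `phi w`, and the jet `w`. -/
noncomputable def crossPt {N J M : ℕ} {E : Type*} [CommRing E] (p : Fin N → Fin (M + 1) → E)
    (w : JIx J M → E) (i j : Fin N) : (Fin N × Fin (M + 1)) ⊕ JIx J M → Polynomial E :=
  open Classical in
  Sum.elim (fun x => if (x.1 = i ∨ x.1 = j) ∧ x.2 = 0 then cst p w x.1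
    else Polynomial.C (p x.1 x.2)) fun x => Polynomial.C (w x)

/-- The hyperplanes `p` and the jet `w`. -/
def ppt {N J M : ℕ} {E : Type*} (p : Fin N → Fin (M + 1) → E) (w : JIx J M → E) :
    (Fin N × Fin (M + 1)) ⊕ JIx J M → E :=
  Sum.elim (fun x => p x.1 x.2) w

/-- The weight of a monomial: a coordinate of order `l` of the jet has weight `l + 1`. -/
def jw {N J M : ℕ} (m : (Fin N × Fin (M + 1)) ⊕ JIx J M →₀ ℕ) : ℕ :=
  ∑ x : JIx J M, m (Sum.inr x) * ((x.1 : ℕ) + 1)

/-- `(Y 0) ^ A` times the value of `F` at the hyperplanes `p` and the jets of `Y / Y 0`, as an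
entire function (for `F` of weight at most `A`). -/
noncomputable def auxFun {N J M : ℕ} (A : ℕ)
    (F : MvPolynomial ((Fin N × Fin (M + 1)) ⊕ JIx J M) ℂ) (p : Fin N → Fin (M + 1) → ℂ)
    (Y : ℂ → Fin (M + 1) → ℂ) (z : ℂ) : ℂ :=
  ∑ m ∈ F.support, coeff m F * (∏ x : Fin N × Fin (M + 1), p x.1 x.2 ^ m (Sum.inl x)) *
    (Y z 0 ^ (A - jw m) *
      ∏ x : JIx J M, (num Y x.2.succ x.1 z / ((x.1 : ℕ).factorial : ℂ)) ^ m (Sum.inr x))

/-- The counting function of a set of points, each counted once. -/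
noncomputable def count (Z : Set ℂ) (r : ℝ) : ℝ := ∑ᶠ z ∈ {z | z ∈ Z ∧ ‖z‖ ≤ r}, SM.c3a_L r z

/-- The points at which the curve meets at least two of the hyperplanes outside `S`, and at which
the coordinate `i₀` does not vanish. -/
def cross {N M : ℕ} (p : Fin N → Fin (M + 1) → ℂ) (Y : ℂ → Fin (M + 1) → ℂ) (i₀ : Fin (M + 1))
    (S : Finset (Fin N)) : Set ℂ :=
  {z | Y z i₀ ≠ 0 ∧ ∃ i j, i ∉ S ∧ j ∉ S ∧ i ≠ j ∧ p i ⬝ᵥ Y z = 0 ∧ p j ⬝ᵥ Y z = 0}

/-- The points at which the curve meets at least one of the hyperplanes that do not contain it. -/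
def meets {N M : ℕ} (p : Fin N → Fin (M + 1) → ℂ) (Y : ℂ → Fin (M + 1) → ℂ) : Set ℂ :=
  {z | ∃ j, (∃ z', p j ⬝ᵥ Y z' ≠ 0) ∧ p j ⬝ᵥ Y z = 0}

/-- The span of `1` and the coordinates of order zero of a jet. -/
def A0 {J M : ℕ} (K : Type*) {E : Type*} [Field K] [Field E] [Algebra K E] (w : JIx J M → E) :
    Submodule K E :=
  Submodule.span K (insert 1 (Set.range fun b : Fin M => w (0, b)))

/-- The span of `1` and the coordinates of positive order of a jet. -/
def A1 {J M : ℕ} (K : Type*) {E : Type*} [Field K] [Field E] [Algebra K E] (w : JIx J M → E) :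
    Submodule K E :=
  Submodule.span K (insert 1 (Set.range fun x : Fin J × Fin M => w (x.1.succ, x.2)))

/-- The crossing estimate for the curve `Y`, the hyperplanes `p` and the coordinate `i₀`, with
constant `c`, for all but `D` of the hyperplanes. -/
def CE {N M : ℕ} (D : ℕ) (c : ℝ) (i₀ : Fin (M + 1)) (p : Fin N → Fin (M + 1) → ℂ)
    (Y : ℂ → Fin (M + 1) → ℂ) : Prop :=
  ∃ (S : Finset (Fin N)) (C : ℝ) (E : Set ℝ), S.card ≤ D ∧
    (∀ r : ℝ, (cross p Y i₀ S ∩ Metric.closedBall 0 r).Finite) ∧ 0 ≤ C ∧ volume E < ⊤ ∧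
    ∀ r : ℝ, 1 ≤ r → r ∉ E →
      count (cross p Y i₀ S) r ≤ c * SM.height Y r +
        C * (Real.log r + Real.posLog (SM.height Y r) + 1)

end Pool.Agent.Lib.GGL.CR
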