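import Mathlib
import Pool.Agent.Lib.MP_8d161d_ag.CR.Defs
import Pool.Agent.Lib.MP_8d161d_ag.SM.C3a

/-!
Counting functions of sets of points.
-/

open Filter Topology MvPolynomial MeasureTheory Module

namespace Pool.Agent.Lib.GGL.CR


/-- The points of `Z` in discs are finite in number. -/
def DiscFinite (Z : Set ℂ) : Prop := ∀ r : ℝ, (Z ∩ Metric.closedBall 0 r).Finite

theorem DiscFinite.zeros {h : ℂ → ℂ} (hh : Differentiable ℂ h) (hne : ∃ z, h z ≠ 0) :
    DiscFinite {z | h z = 0} := fun r => SM.zeros_finite hh hne r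

theorem DiscFinite.mono {Z Z' : Set ℂ} (h : DiscFinite Z') (hZ : Z ⊆ Z') : DiscFinite Z :=
  fun r => (h r).subset (Set.inter_subset_inter_left _ hZ)

/-- The counting function as a finite sum. -/
theorem k1_count_eq {Z : Set ℂ} {r : ℝ} (T : Finset ℂ)
    (hT : ∀ z, z ∈ Z → ‖z‖ ≤ r → z ∈ T) (hTr : ∀ z ∈ T, ‖z‖ ≤ r) :
    count Z r = ∑ z ∈ T, (open Classical in if z ∈ Z then (1 : ℝ) else 0) * SM.c3a_L r z := by
  classical
  have h1 : {z | z ∈ Z ∧ ‖z‖ ≤ r} = ↑(T.filter fun z => z ∈ Z) := by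
    ext z
    rw [Finset.coe_filter]
    constructor
    · rintro ⟨h1, h2⟩
      exact ⟨hT z h1 h2, h1⟩
    · rintro ⟨h1, h2⟩
      exact ⟨h2, hTr z h1⟩
  rw [count, h1, finsum_mem_coe_finset, Finset.sum_filter]
  refine Finset.sum_congr rfl fun z _ => ?_
  by_cases hz : z ∈ Z
  · rw [if_pos hz, if_pos hz, one_mul]
  · rw [if_neg hz, if_neg hz, zero_mul]

theorem k1_count_toFinset {Z : Set ℂ} (h : DiscFinite Z) (r : ℝ) :
    count Z r = ∑ z ∈ (h r).toFinset, SM.c3a_L r z := by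
  classical
  rw [k1_count_eq (h r).toFinset (fun z hz hr => ?_) (fun z hz => ?_)]
  · refine Finset.sum_congr rfl fun z hz => ?_
    rw [Set.Finite.mem_toFinset] at hz
    rw [if_pos hz.1, one_mul]
  · rw [Set.Finite.mem_toFinset]
    exact ⟨hz, mem_closedBall_zero_iff.2 hr⟩
  · rw [Set.Finite.mem_toFinset] at hz
    exact mem_closedBall_zero_iff.1 hz.2

theorem count_eq_count1 {h : ℂ → ℂ} (hh : Differentiable ℂ h) (hne : ∃ z, h z ≠ 0) {r : ℝ}
    (hr : 1 ≤ r) : count {z | h z = 0} r = SM.count1 h r := by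
  rw [SM.c3a_count1 hh hne hr, k1_count_toFinset (DiscFinite.zeros hh hne) r]

theorem count_nonneg (Z : Set ℂ) {r : ℝ} (hr : 1 ≤ r) : 0 ≤ count Z r := by
  refine finsum_nonneg fun z => finsum_nonneg fun hz => ?_
  exact SM.c3a_L_nonneg hr hz.2

/-- Pointwise comparison of linear combinations of counting functions. -/
theorem count_compare {α β : Type*} [Fintype α] [Fintype β] {Z : α → Set ℂ} {Z' : β → Set ℂ}
    (hZ : ∀ x, DiscFinite (Z x)) (hZ' : ∀ x, DiscFinite (Z' x)) (c : α → ℝ) (c' : β → ℝ)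
    (h : ∀ z, ∑ x, c x * (open Classical in if z ∈ Z x then 1 else 0) ≤
      ∑ x, c' x * (open Classical in if z ∈ Z' x then 1 else 0)) {r : ℝ} (hr : 1 ≤ r) :
    ∑ x, c x * count (Z x) r ≤ ∑ x, c' x * count (Z' x) r := by
  classical
  obtain ⟨T, hT⟩ : ∃ T : Finset ℂ, T = (Finset.univ.biUnion fun x => (hZ x r).toFinset) ∪
      Finset.univ.biUnion fun x => (hZ' x r).toFinset := ⟨_, rfl⟩
  have hT1 : ∀ x z, z ∈ Z x → ‖z‖ ≤ r → z ∈ T := by
    intro x z h1 h2
    rw [hT]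
    refine Finset.mem_union_left _ (Finset.mem_biUnion.2 ⟨x, Finset.mem_univ x, ?_⟩)
    rw [Set.Finite.mem_toFinset]
    exact ⟨h1, mem_closedBall_zero_iff.2 h2⟩
  have hT2 : ∀ x z, z ∈ Z' x → ‖z‖ ≤ r → z ∈ T := by
    intro x z h1 h2
    rw [hT]
    refine Finset.mem_union_right _ (Finset.mem_biUnion.2 ⟨x, Finset.mem_univ x, ?_⟩)
    rw [Set.Finite.mem_toFinset]
    exact ⟨h1, mem_closedBall_zero_iff.2 h2⟩
  have hTr : ∀ z ∈ T, ‖z‖ ≤ r := by
    intro z hz
    rw [hT, Finset.mem_union, Finset.mem_biUnion, Finset.mem_biUnion] at hz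
    rcases hz with ⟨x, -, hx⟩ | ⟨x, -, hx⟩
    · rw [Set.Finite.mem_toFinset] at hx
      exact mem_closedBall_zero_iff.1 hx.2
    · rw [Set.Finite.mem_toFinset] at hx
      exact mem_closedBall_zero_iff.1 hx.2
  have e1 : ∑ x, c x * count (Z x) r =
      ∑ z ∈ T, (∑ x, c x * (if z ∈ Z x then (1 : ℝ) else 0)) * SM.c3a_L r z := by
    rw [Finset.sum_congr rfl fun x _ => by rw [k1_count_eq T (hT1 x) hTr]]
    simp only [Finset.mul_sum, Finset.sum_mul]
    rw [Finset.sum_comm]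
    refine Finset.sum_congr rfl fun z _ => Finset.sum_congr rfl fun x _ => ?_
    rw [mul_assoc]
  have e2 : ∑ x, c' x * count (Z' x) r =
      ∑ z ∈ T, (∑ x, c' x * (if z ∈ Z' x then (1 : ℝ) else 0)) * SM.c3a_L r z := by
    rw [Finset.sum_congr rfl fun x _ => by rw [k1_count_eq T (hT2 x) hTr]]
    simp only [Finset.mul_sum, Finset.sum_mul]
    rw [Finset.sum_comm]
    refine Finset.sum_congr rfl fun z _ => Finset.sum_congr rfl fun x _ => ?_
    rw [mul_assoc]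
  rw [e1, e2]
  exact Finset.sum_le_sum fun z hz =>
    mul_le_mul_of_nonneg_right (h z) (SM.c3a_L_nonneg hr (hTr z hz))

theorem count_mono {Z Z' : Set ℂ} (h : DiscFinite Z') (hZ : Z ⊆ Z') {r : ℝ} (hr : 1 ≤ r) :
    count Z r ≤ count Z' r := by
  classical
  have h1 := count_compare (α := Unit) (β := Unit) (Z := fun _ => Z) (Z' := fun _ => Z')
    (fun _ => h.mono hZ) (fun _ => h) (fun _ => 1) (fun _ => 1) (fun z => ?_) hr
  · simpa using h1
  · simp only [Finset.univ_unique, Finset.sum_const, Finset.card_singleton, one_smul, one_mul]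
    by_cases hz : z ∈ Z
    · rw [if_pos hz, if_pos (hZ hz)]
    · rw [if_neg hz]
      split_ifs
      · exact zero_le_one
      · exact le_rfl

/-- The first main theorem for hyperplanes. -/
theorem count_dot_le {M : ℕ} {Y : ℂ → Fin (M + 1) → ℂ} (hY : Differentiable ℂ Y)
    (h0 : ∀ z, Y z ≠ 0) (v : Fin (M + 1) → ℂ) (hv : ∃ z, v ⬝ᵥ Y z ≠ 0) :
    ∃ C : ℝ, 0 ≤ C ∧ ∀ r : ℝ, 1 ≤ r →
      count {z | v ⬝ᵥ Y z = 0} r ≤ SM.height Y r + C := by
  classical
  have hA : Differentiable ℂ fun z => v ⬝ᵥ Y z := by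
    have : Differentiable ℂ fun z => ∑ i, v i * Y z i := by
      refine Differentiable.fun_sum fun i _ => Differentiable.const_mul ?_ _
      exact fun z => (differentiableAt_pi.1 (hY z)) i
    exact this
  obtain ⟨C, hC⟩ := SM.c3a_average_le hY h0 hA hv
  obtain ⟨c, hc⟩ : ∃ c : ℝ, c = Real.log ‖meromorphicTrailingCoeffAt (fun z => v ⬝ᵥ Y z) 0‖ :=
    ⟨_, rfl⟩
  refine ⟨|C - c|, abs_nonneg _, fun r hr => ?_⟩
  have h1 := hC r hr
  rw [SM.e4_jensen hA hv hr, ← hc] at h1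
  have h2 : count {z | v ⬝ᵥ Y z = 0} r ≤ ∑ z ∈ (SM.zeros_finite hA hv r).toFinset,
      (analyticOrderNatAt (fun z => v ⬝ᵥ Y z) z : ℝ) * SM.c3a_L r z := by
    rw [k1_count_toFinset (DiscFinite.zeros hA hv) r]
    refine Finset.sum_le_sum fun z hz => ?_
    have hz' := hz
    rw [Set.Finite.mem_toFinset] at hz
    have h3 : (1 : ℝ) ≤ analyticOrderNatAt (fun z => v ⬝ᵥ Y z) z := by
      have h4 := SM.e4_order_pos hA hv hz.1
      exact_mod_cast h4
    exact le_mul_of_one_le_left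
      (SM.c3a_L_nonneg hr (mem_closedBall_zero_iff.1 hz.2)) h3
  have h5 := le_abs_self (C - c)
  have h6 : ∑ z ∈ (SM.zeros_finite hA hv r).toFinset,
      (analyticOrderNatAt (fun z => v ⬝ᵥ Y z) z : ℝ) * SM.c3a_L r z + c ≤
        SM.height Y r + C := h1
  linarith

/-- Points at which the orders of finitely many functions add up to at least `m`. -/
theorem count_orders {ι : Type*} [Fintype ι] {m : ℕ} {h : ι → ℂ → ℂ}
    (hh : ∀ j, Differentiable ℂ (h j)) (hne : ∀ j, ∃ z, h j z ≠ 0)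
    (hord : ∀ z, (∃ j, h j z = 0) → m ≤ ∑ j, analyticOrderNatAt (h j) z) :
    ∃ C : ℝ, ∀ r : ℝ, 1 ≤ r → m * count {z | ∃ j, h j z = 0} r ≤
      ∑ j, Real.circleAverage (fun z => Real.log ‖h j z‖) 0 r + C := by
  classical
  let c : ι → ℝ := fun j => Real.log ‖meromorphicTrailingCoeffAt (h j) 0‖
  refine ⟨- ∑ j, c j, fun r hr => ?_⟩
  let T : ι → Finset ℂ := fun j => (SM.zeros_finite (hh j) (hne j) r).toFinset
  let Z : Finset ℂ := Finset.univ.biUnion T
  have hT : ∀ j u, u ∈ T j ↔ h j u = 0 ∧ ‖u‖ ≤ r := by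
    intro j u
    rw [Set.Finite.mem_toFinset]
    constructor
    · rintro ⟨h1, h2⟩
      exact ⟨h1, mem_closedBall_zero_iff.1 h2⟩
    · rintro ⟨h1, h2⟩
      exact ⟨h1, mem_closedBall_zero_iff.2 h2⟩
  have hTZ : ∀ j, T j ⊆ Z := fun j => Finset.subset_biUnion_of_mem T (Finset.mem_univ j)
  have hZr : ∀ u ∈ Z, ‖u‖ ≤ r := by
    intro u hu
    obtain ⟨j, -, hj⟩ := Finset.mem_biUnion.1 hu
    exact ((hT j u).1 hj).2
  have hZZ : ∀ z, z ∈ {z | ∃ j, h j z = 0} → ‖z‖ ≤ r → z ∈ Z := by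
    rintro z ⟨j, hj⟩ hz
    exact hTZ j ((hT j z).2 ⟨hj, hz⟩)
  have hcount := k1_count_eq (Z := {z | ∃ j, h j z = 0}) (r := r) Z hZZ hZr
  have havg : ∀ j, Real.circleAverage (fun z => Real.log ‖h j z‖) 0 r =
      ∑ u ∈ Z, (analyticOrderNatAt (h j) u : ℝ) * SM.c3a_L r u + c j := by
    intro j
    rw [SM.e4_jensen (hh j) (hne j) hr]
    congr 1
    refine Finset.sum_subset (hTZ j) fun u hu hu' => ?_
    have h2 : h j u ≠ 0 := fun h2 => hu' ((hT j u).2 ⟨h2, hZr u hu⟩)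
    have h3 : analyticOrderNatAt (h j) u = 0 := by
      rw [analyticOrderNatAt, ((hh j).analyticAt u).analyticOrderAt_eq_zero.mpr h2]
      rfl
    rw [h3]
    simp
  have h2 : ∑ j, Real.circleAverage (fun z => Real.log ‖h j z‖) 0 r =
      ∑ u ∈ Z, ((∑ j, analyticOrderNatAt (h j) u : ℕ) : ℝ) * SM.c3a_L r u + ∑ j, c j := by
    rw [Finset.sum_congr rfl fun j _ => havg j, Finset.sum_add_distrib, Finset.sum_comm]
    congr 1
    refine Finset.sum_congr rfl fun u _ => ?_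
    rw [← Finset.sum_mul]
    congr 1
    push_cast
    rfl
  rw [hcount, h2, add_assoc, add_neg_cancel, add_zero, Finset.mul_sum]
  refine Finset.sum_le_sum fun u hu => ?_
  rw [← mul_assoc]
  apply mul_le_mul_of_nonneg_right _ (SM.c3a_L_nonneg hr (hZr u hu))
  by_cases hu0 : u ∈ {z | ∃ j, h j z = 0}
  · rw [if_pos hu0, mul_one]
    exact_mod_cast hord u hu0
  · rw [if_neg hu0, mul_zero]
    exact Nat.cast_nonneg _

end Pool.Agent.Lib.GGL.CR
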