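import Mathlib
import Pool.Agent.Lib.MP_8d161d_ag.CR.K1

/-!
The counting function of a set of points in the form of the statement.
-/

open Filter Topology MvPolynomial MeasureTheory Module

namespace Pool.Agent.Lib.GGL.CR

theorem count_split {Z : Set ℂ} (hZ : DiscFinite Z) {r : ℝ} (hr : 1 ≤ r) :
    count Z r = (∑ᶠ z ∈ {z : ℂ | z ∈ Z ∧ z ≠ 0 ∧ ‖z‖ ≤ r}, Real.log (r / ‖z‖)) +
      (open Classical in if (0 : ℂ) ∈ Z then Real.log r else 0) := by
  classical
  have hfin : {z : ℂ | z ∈ Z ∧ ‖z‖ ≤ r}.Finite := by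
    refine (hZ r).subset ?_
    rintro z ⟨h1, h2⟩
    exact ⟨h1, mem_closedBall_zero_iff.2 h2⟩
  have hfin' : {z : ℂ | z ∈ Z ∧ z ≠ 0 ∧ ‖z‖ ≤ r}.Finite := by
    refine hfin.subset ?_
    rintro z ⟨h1, -, h2⟩
    exact ⟨h1, h2⟩
  unfold count
  rw [finsum_mem_eq_finite_toFinset_sum _ hfin, finsum_mem_eq_finite_toFinset_sum _ hfin']
  by_cases h0 : (0 : ℂ) ∈ Z
  · rw [if_pos h0]
    have h1 : hfin.toFinset = insert 0 hfin'.toFinset := by
      ext z
      simp only [Set.Finite.mem_toFinset, Set.mem_setOf_eq, Finset.mem_insert]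
      constructor
      · rintro ⟨h2, h3⟩
        by_cases hz : z = 0
        · exact Or.inl hz
        · exact Or.inr ⟨h2, hz, h3⟩
      · rintro (rfl | ⟨h2, -, h3⟩)
        · exact ⟨h0, by rw [norm_zero]; linarith⟩
        · exact ⟨h2, h3⟩
    have h2 : (0 : ℂ) ∉ hfin'.toFinset := by
      simp
    rw [h1, Finset.sum_insert h2, add_comm]
    congr 1
    · refine Finset.sum_congr rfl fun z hz => ?_
      unfold SM.c3a_L
      rw [if_neg]
      rintro rfl
      exact h2 hz
    · unfold SM.c3a_L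
      rw [if_pos rfl]
  · rw [if_neg h0, add_zero]
    have h1 : hfin.toFinset = hfin'.toFinset := by
      ext z
      simp only [Set.Finite.mem_toFinset, Set.mem_setOf_eq]
      constructor
      · rintro ⟨h2, h3⟩
        refine ⟨h2, ?_, h3⟩
        rintro rfl
        exact h0 h2
      · rintro ⟨h2, -, h3⟩
        exact ⟨h2, h3⟩
    rw [h1]
    refine Finset.sum_congr rfl fun z hz => ?_
    unfold SM.c3a_L
    rw [if_neg]
    rintro rfl
    simp at hz

end Pool.Agent.Lib.GGL.CR
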